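import Pool.Agent.Run7.h476.LP.Main

set_option autoImplicit false

namespace Pool.Agent.Run7.h476.LP

open Finset

theorem arith {A B M P t d E l m : ℕ} (hM : 8 ≤ M) (hA : 0 < A) (hP : 0 < P)
    (h1 : A * M ^ 7 ≤ B) (h2 : B ≤ A * P) (ht : A * t ≤ 4 * B) (hd : d ≤ M ^ 2)
    (hE : P ^ 2 * M ^ 6 * E ≤ 4 * B) (hl : A ≤ M * l) (hm : B ≤ M * m) :
    2 * t * d * E ≤ l ∧ 2 * A + d * (t ^ 2 + 1) * E ≤ m := by
  have hM0 : 0 < M := by omega
  have hM3 : 512 ≤ M ^ 3 := by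
    calc 512 = 8 ^ 3 := by norm_num
      _ ≤ M ^ 3 := Nat.pow_le_pow_left hM 3
  have hM6 : 4 ≤ M ^ 6 := by
    calc 4 ≤ 8 ^ 6 := by norm_num
      _ ≤ M ^ 6 := Nat.pow_le_pow_left hM 6
  have htP : t ≤ 4 * P := by
    refine Nat.le_of_mul_le_mul_left ?_ hA
    calc A * t ≤ 4 * B := ht
      _ ≤ 4 * (A * P) := Nat.mul_le_mul_left _ h2
      _ = A * (4 * P) := by ring
  have hE1 : P * M ^ 6 * E ≤ 4 * A := by
    refine Nat.le_of_mul_le_mul_left ?_ hP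
    calc P * (P * M ^ 6 * E) = P ^ 2 * M ^ 6 * E := by ring
      _ ≤ 4 * B := hE
      _ ≤ 4 * (A * P) := Nat.mul_le_mul_left _ h2
      _ = P * (4 * A) := by ring
  constructor
  · refine Nat.le_of_mul_le_mul_left ?_ hM0
    refine le_trans ?_ hl
    have h3 : M * (2 * t * d * E) ≤ 8 * P * M ^ 3 * E := by
      calc M * (2 * t * d * E) ≤ M * (2 * (4 * P) * M ^ 2 * E) := by gcongr
        _ = 8 * P * M ^ 3 * E := by ring
    refine h3.trans ?_
    refine Nat.le_of_mul_le_mul_left ?_ (show 0 < M ^ 3 by positivity)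
    calc M ^ 3 * (8 * P * M ^ 3 * E) = 8 * (P * M ^ 6 * E) := by ring
      _ ≤ 8 * (4 * A) := Nat.mul_le_mul_left _ hE1
      _ ≤ 512 * A := by omega
      _ ≤ M ^ 3 * A := Nat.mul_le_mul_right _ hM3
  · refine Nat.le_of_mul_le_mul_left ?_ hM0
    refine le_trans ?_ hm
    have h3 : 2 * (M * (2 * A)) ≤ B := by
      calc 2 * (M * (2 * A)) = A * (M * 4) := by ring
        _ ≤ A * (M * M ^ 6) := by gcongr
        _ = A * M ^ 7 := by ring
        _ ≤ B := h1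
    have h4 : M * (d * (t ^ 2 + 1) * E) ≤ 17 * P ^ 2 * M ^ 3 * E := by
      have h5 : t ^ 2 + 1 ≤ 17 * P ^ 2 := by nlinarith
      calc M * (d * (t ^ 2 + 1) * E) ≤ M * (M ^ 2 * (17 * P ^ 2) * E) := by gcongr
        _ = 17 * P ^ 2 * M ^ 3 * E := by ring
    have h6 : 2 * (17 * P ^ 2 * M ^ 3 * E) ≤ B := by
      refine Nat.le_of_mul_le_mul_left ?_ (show 0 < M ^ 3 by positivity)
      calc M ^ 3 * (2 * (17 * P ^ 2 * M ^ 3 * E)) = 34 * (P ^ 2 * M ^ 6 * E) := by ring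
        _ ≤ 34 * (4 * B) := Nat.mul_le_mul_left _ hE
        _ ≤ 512 * B := by omega
        _ ≤ M ^ 3 * B := Nat.mul_le_mul_right _ hM3
    rw [Nat.mul_add]
    omega

/-- `r + 1` scales, `r` the number of colours -/
theorem scales {κ : Type*} [Fintype κ] (V : κ → Set ℕ) {M N : ℕ} (hM : 8 ≤ M)
    (hN : M ^ (16 * Fintype.card κ + 8) ≤ N) (q A l : ℕ → ℕ) (a : ℕ → κ)
    (hq : ∀ j ≤ Fintype.card κ, 0 < q j ∧ q j ≤ M)
    (hA : ∀ j ≤ Fintype.card κ, N * M ^ (8 * j) ≤ A j ∧ A j ≤ N * M ^ (8 * j + 1))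
    (hl : ∀ j ≤ Fintype.card κ, A j ≤ M * l j)
    (hE : ∀ j ≤ Fintype.card κ,
      M ^ (16 * Fintype.card κ + 8) * (exc (V (a j)) (q j) (A j) (l j)).card ≤ A j) :
    ∃ (b : κ) (x y z : ℕ), N ≤ x ∧ N ≤ y ∧ N ≤ z ∧ x ^ 2 + y ^ 2 = z ^ 2 ∧
      x ∈ V b ∧ y ∈ V b ∧ z ∈ V b := by
  classical
  set r := Fintype.card κ with hr
  have hM0 : 0 < M := by omega
  obtain ⟨i, hi, j, hj, hij, he⟩ : ∃ i ∈ Finset.range (r + 1), ∃ j ∈ Finset.range (r + 1),
      i < j ∧ a i = a j := by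
    have hcard : (Finset.univ : Finset κ).card < (Finset.range (r + 1)).card := by
      rw [Finset.card_range, Finset.card_univ]
      omega
    obtain ⟨i, hi, j, hj, hne, he⟩ := Finset.exists_ne_map_eq_of_card_lt_of_maps_to hcard
      (f := a) (fun _ _ => Finset.mem_coe.2 (Finset.mem_univ _))
    rcases lt_or_gt_of_ne hne with h | h
    · exact ⟨i, hi, j, hj, h, he⟩
    · exact ⟨j, hj, i, hi, h, he.symm⟩
  have hi' : i ≤ r := by have := Finset.mem_range.1 hi; omega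
  have hj' : j ≤ r := by have := Finset.mem_range.1 hj; omega
  have hpow : 0 < M ^ (16 * r + 8) := by positivity
  have hN0 : 0 < N := lt_of_lt_of_le hpow hN
  have hNA : ∀ k ≤ r, N ≤ A k := fun k hk =>
    le_trans (Nat.le_mul_of_pos_right _ (by positivity)) (hA k hk).1
  have h1 : A i * M ^ 7 ≤ A j := by
    calc A i * M ^ 7 ≤ N * M ^ (8 * i + 1) * M ^ 7 := Nat.mul_le_mul_right _ (hA i hi').2
      _ = N * M ^ (8 * i + 8) := by ring
      _ ≤ N * M ^ (8 * j) := Nat.mul_le_mul_left _ (Nat.pow_le_pow_right hM0 (by omega))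
      _ ≤ A j := (hA j hj').1
  have h2 : A j ≤ A i * M ^ (8 * r + 1) := by
    calc A j ≤ N * M ^ (8 * j + 1) := (hA j hj').2
      _ ≤ N * M ^ (8 * r + 1) := Nat.mul_le_mul_left _ (Nat.pow_le_pow_right hM0 (by omega))
      _ ≤ A i * M ^ (8 * r + 1) := Nat.mul_le_mul_right _ (hNA i hi')
  have hAi : 0 < A i := lt_of_lt_of_le hN0 (hNA i hi')
  have hAB : A i ≤ A j := le_trans (Nat.le_mul_of_pos_right _ (by positivity)) h1
  have ht : A i * (2 * A j / A i + 2) ≤ 4 * A j := by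
    have := Nat.mul_div_le (2 * A j) (A i)
    rw [Nat.mul_add]
    omega
  have hd : q i * q j ≤ M ^ 2 := by
    rw [pow_two]
    exact Nat.mul_le_mul (hq i hi').2 (hq j hj').2
  have hEE : (M ^ (8 * r + 1)) ^ 2 * M ^ 6 * ((exc (V (a i)) (q i) (A i) (l i)).card +
      2 * (exc (V (a i)) (q j) (A j) (l j)).card + 1) ≤ 4 * A j := by
    have hp : (M ^ (8 * r + 1)) ^ 2 * M ^ 6 = M ^ (16 * r + 8) := by
      rw [← pow_mul, ← pow_add]
      congr 1
      ring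
    rw [hp]
    have e1 := hE i hi'
    have e2 := hE j hj'
    rw [← he] at e2
    have e3 := hNA j hj'
    nlinarith
  obtain ⟨ha, hb⟩ := arith (E := (exc (V (a i)) (q i) (A i) (l i)).card +
      2 * (exc (V (a i)) (q j) (A j) (l j)).card + 1) hM hAi
    (show 0 < M ^ (8 * r + 1) by positivity) h1 h2 ht hd hEE (hl i hi') (hl j hj')
  obtain ⟨x, y, z, -, -, -, k1, -, k2, k3, -, k4, k5, k6, k7⟩ :=
    pair (V (a i)) hAi (hq i hi').1 (hq j hj').1 ha hb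
  exact ⟨a i, x, y, z, (hNA i hi').trans k1, (hNA j hj').trans k2,
    ((hNA j hj').trans k2).trans k3.le, k4, k5, k6, k7⟩

end Pool.Agent.Run7.h476.LP
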