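import Pool.Agent.Run7.h476.LP.Thick
import Pool.Agent.Run7.h476.LP.Scales

set_option autoImplicit false

namespace Pool.Agent.Run7.h476.LP

open Finset

/-- one member of a finite family for all `K` -/
theorem one_of {κ : Type*} [Finite κ] {Q : κ → ℕ → Prop}
    (hm : ∀ b K K', K ≤ K' → Q b K' → Q b K) (h : ∀ K, ∃ b, Q b K) : ∃ b, ∀ K, Q b K := by
  have := Fintype.ofFinite κ
  by_contra hcon
  push Not at hcon
  choose K hK using hcon
  obtain ⟨b, hb⟩ := h (∑ b, K b)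
  exact hK b (hm b _ _ (Finset.single_le_sum (f := K) (fun _ _ => Nat.zero_le _)
    (Finset.mem_univ b)) hb)

theorem thick {κ : Type*} [Finite κ] (D : Set ℕ)
    (hD : ∀ (S : ℕ) (δ : ℝ), 0 < δ → ∃ ρ : ℝ, 0 < ρ ∧ ∃ A₀ : ℕ, ∀ n ≥ A₀,
      ρ * n ≤ ((core D S δ n).ncard : ℝ)) (δ : ℝ) (hδ : 0 < δ) (C : ℕ) :
    ∃ ε : ℝ, 0 < ε ∧ ∃ R : ℕ, ∀ V : κ → Set ℕ,
      (∀ N₀ : ℕ, ∃ N₁ ≥ N₀, ∀ N, N₁ ≤ N → N ≤ R * N₁ → ∃ (A : ℕ) (a : κ), N ≤ A ∧ A ≤ C * N ∧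
        ((excD (V a) D δ A).ncard : ℝ) ≤ ε * A) →
      ∃ b : κ, ∀ K : ℕ, ∃ x ∈ D ∩ V b, ∃ y ∈ D ∩ V b, ∃ z ∈ D ∩ V b,
        K < x ∧ K < y ∧ K < z ∧ x ^ 2 + y ^ 2 = z ^ 2 := by
  classical
  have := Fintype.ofFinite κ
  set r := Fintype.card κ with hr
  set d := min δ 1 with hd
  have hd0 : 0 < d := lt_min hδ one_pos
  have hd1 : d ≤ 1 := min_le_right _ _
  have hdδ : d ≤ δ := min_le_left _ _
  set M := max C (max ⌈8 / d⌉₊ 2) with hM
  have hMC : C ≤ M := le_max_left _ _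
  have hM2 : 2 ≤ M := (le_max_right _ _).trans (le_max_right _ _)
  have hM8 : 8 ≤ d * M := by
    have h1 : (8 / d : ℝ) ≤ M := (Nat.le_ceil _).trans (by
      exact_mod_cast (le_max_left _ _).trans (le_max_right C (max ⌈8 / d⌉₊ 2)))
    rw [div_le_iff₀ hd0] at h1
    linarith
  have hM0 : 0 < M := by omega
  set P := M ^ (2 * r + 1) with hPdef
  have hP : 0 < P := by positivity
  have hPr : (0 : ℝ) < P := by exact_mod_cast hP
  obtain ⟨ρ, hρ, A₀, hA₀⟩ := hD (17 * P ^ 2) (d / 16) (by positivity)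
  refine ⟨ρ / (32 * P ^ 2), by positivity, M ^ (2 * r), fun V hc => one_of ?_ fun K => ?_⟩
  · rintro b K K' hKK ⟨x, hx, y, hy, z, hz, h1, h2, h3, h4⟩
    exact ⟨x, hx, y, hy, z, hz, by omega, by omega, by omega, h4⟩
  obtain ⟨N₁, hN₁, hN⟩ := hc (max (8 * P * (A₀ + 1)) (max ⌈128 * P / d⌉₊ (K + 1)))
  have b1 : 8 * P * (A₀ + 1) ≤ N₁ := (le_max_left _ _).trans hN₁
  have b2 : (128 * P : ℝ) ≤ d * N₁ := by
    have h1 : (128 * P / d : ℝ) ≤ N₁ := (Nat.le_ceil _).trans (by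
      exact_mod_cast ((le_max_left _ _).trans (le_max_right _ _)).trans hN₁)
    rw [div_le_iff₀ hd0] at h1
    linarith
  have b3 : K + 1 ≤ N₁ := ((le_max_right _ _).trans (le_max_right _ _)).trans hN₁
  have hN₁0 : 0 < N₁ := by omega
  have hsc : ∀ j : ℕ, ∃ (A : ℕ) (a : κ), j ≤ r → N₁ * M ^ (2 * j) ≤ A ∧
      A ≤ N₁ * M ^ (2 * j + 1) ∧ ((excD (V a) D δ A).ncard : ℝ) ≤ ρ / (32 * P ^ 2) * A := by
    intro j
    by_cases hj : j ≤ r
    · obtain ⟨A, a, h1, h2, h3⟩ := hN (N₁ * M ^ (2 * j))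
        (Nat.le_mul_of_pos_right _ (by positivity))
        (by rw [mul_comm]; exact Nat.mul_le_mul_right _ (Nat.pow_le_pow_right hM0 (by omega)))
      refine ⟨A, a, fun _ => ⟨h1, h2.trans ?_, h3⟩⟩
      calc C * (N₁ * M ^ (2 * j)) ≤ M * (N₁ * M ^ (2 * j)) := Nat.mul_le_mul_right _ hMC
        _ = N₁ * M ^ (2 * j + 1) := by ring
    · obtain ⟨A, a, -⟩ := hN N₁ le_rfl (Nat.le_mul_of_pos_left _ (by positivity))
      exact ⟨A, a, fun h => absurd h hj⟩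
  choose A a hAa using hsc
  obtain ⟨i, hi, j, hj, hij, he⟩ : ∃ i ∈ Finset.range (r + 1), ∃ j ∈ Finset.range (r + 1),
      i < j ∧ a i = a j := by
    have hcard : (Finset.univ : Finset κ).card < (Finset.range (r + 1)).card := by
      rw [Finset.card_range, Finset.card_univ]
      omega
    obtain ⟨i, hi, j, hj, hne, he⟩ := Finset.exists_ne_map_eq_of_card_lt_of_maps_to hcard
      (f := a) (fun _ _ => Finset.mem_coe.2 (Finset.mem_univ _))
    rcases lt_or_gt_of_ne hne with h | h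
    · exact ⟨i, hi, j, hj, h, he⟩
    · exact ⟨j, hj, i, hi, h, he.symm⟩
  have hi' : i ≤ r := by have := Finset.mem_range.1 hi; omega
  have hj' : j ≤ r := by have := Finset.mem_range.1 hj; omega
  obtain ⟨u1, u2, u3⟩ := hAa i hi'
  obtain ⟨v1, v2, v3⟩ := hAa j hj'
  rw [← he] at v3
  have hNA : ∀ k ≤ r, N₁ ≤ A k := fun k hk =>
    le_trans (Nat.le_mul_of_pos_right _ (by positivity)) (hAa k hk).1
  have mono : ∀ n : ℕ, (excD (V (a i)) D d n).ncard ≤ (excD (V (a i)) D δ n).ncard := by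
    intro n
    refine Set.ncard_le_ncard ?_ (excD_finite (V (a i)) D δ n)
    rintro m ⟨h1, h2, h3⟩
    exact ⟨h1, h2.trans (by gcongr), h3⟩
  have h1 : A i * M ≤ A j := by
    calc A i * M ≤ N₁ * M ^ (2 * i + 1) * M := Nat.mul_le_mul_right _ u2
      _ = N₁ * M ^ (2 * i + 2) := by ring
      _ ≤ N₁ * M ^ (2 * j) := Nat.mul_le_mul_left _ (Nat.pow_le_pow_right hM0 (by omega))
      _ ≤ A j := v1
  have h2 : A j ≤ A i * P := by
    calc A j ≤ N₁ * M ^ (2 * j + 1) := v2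
      _ ≤ N₁ * M ^ (2 * r + 1) := Nat.mul_le_mul_left _ (Nat.pow_le_pow_right hM0 (by omega))
      _ ≤ A i * P := Nat.mul_le_mul_right _ (hNA i hi')
  have b2' : (128 * P : ℝ) ≤ d * A i := b2.trans (by
    have : (N₁ : ℝ) ≤ A i := by exact_mod_cast hNA i hi'
    gcongr)
  have h1' : (8 * A i : ℝ) ≤ d * A j := by
    have h1r : (A i : ℝ) * M ≤ A j := by exact_mod_cast h1
    calc (8 * A i : ℝ) ≤ (d * M) * A i := by gcongr
      _ = d * (A i * M) := by ring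
      _ ≤ d * A j := by gcongr
  obtain ⟨x, y, z, k1, k2, k3, k4, k5, k6, k7, k8, k9, k10⟩ :=
    pairD (V (a i)) D (P := P) (S := 17 * P ^ 2) (ε := ρ / (32 * P ^ 2)) hd0 hd1 hρ hA₀ hP le_rfl
      (by rw [div_mul_cancel₀]; positivity) (b1.trans (hNA i hi')) b2' h1' h2
      (le_trans (by exact_mod_cast mono (A i)) u3) (le_trans (by exact_mod_cast mono (A j)) v3)
  have hKi := b3.trans (hNA i hi')
  have hKj := b3.trans (hNA j hj')
  exact ⟨a i, x, ⟨k1, k8⟩, y, ⟨k2, k9⟩, z, ⟨k3, k10⟩, by omega, by omega, by omega, k7⟩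

end Pool.Agent.Run7.h476.LP
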