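import Mathlib

set_option autoImplicit false

/-!
Pythagorean triples in colourings with one long homogeneous progression of almost constant colour
at each of `r + 1` scales.
-/

namespace Pool.Agent.Run7.h476.LP

open Finset

/-- The triples `(2 k t, k (t ^ 2 - 1), k (t ^ 2 + 1))` with `k = L u`, `u` running through `E + 1`
consecutive values, for the right `t`: the first entry is in `[A, A + l]`, the other two are in
`[B, B + m]`. -/
theorem fam {A B L l m E : ℕ} (hA : 0 < A) (hL : 0 < L)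
    (ha : 2 * (2 * B / A + 2) * L * (E + 1) ≤ l)
    (hb : 2 * A + L * ((2 * B / A + 2) ^ 2 + 1) * (E + 1) ≤ m) :
    ∃ X Y Z : ℕ → ℕ, (Function.Injective X) ∧ (Function.Injective Y) ∧ (Function.Injective Z) ∧
      ∀ s ≤ E, L ∣ X s ∧ L ∣ Y s ∧ L ∣ Z s ∧ A ≤ X s ∧ X s ≤ A + l ∧ B ≤ Y s ∧ Y s < Z s ∧
        Z s ≤ B + m ∧ X s ^ 2 + Y s ^ 2 = Z s ^ 2 := by
  set t := 2 * B / A + 2 with ht
  have ht2 : 2 ≤ t := Nat.le_add_left _ _
  obtain ⟨w, hw⟩ : ∃ w, t ^ 2 = w + 1 := ⟨t ^ 2 - 1, by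
    have : 1 ≤ t ^ 2 := Nat.one_le_pow _ _ (by omega)
    omega⟩
  have hw0 : 0 < w := by nlinarith
  have h3 : 2 * B < A * (t - 1) := by
    have := Nat.lt_mul_div_succ (2 * B) hA
    have h4 : t - 1 = 2 * B / A + 1 := by omega
    rw [h4]; exact this
  have h5 : A * (t - 2) ≤ 2 * B := by
    have := Nat.mul_div_le (2 * B) A
    have h4 : t - 2 = 2 * B / A := by omega
    rw [h4]; exact this
  obtain ⟨v, hv⟩ : ∃ v, t = v + 2 := ⟨t - 2, by omega⟩
  have h3' : 2 * B < A * (v + 1) := by rw [hv] at h3; exact h3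
  have h5' : A * v ≤ 2 * B := by rw [hv] at h5; exact h5
  -- bounds
  have h1 : 2 * t * B ≤ A * w := by
    have hwv : w = (v + 1) * (v + 3) := by
      have : w + 1 = (v + 2) ^ 2 := by rw [← hw, hv]
      nlinarith
    rw [hwv, hv]
    nlinarith
  have h2 : A * (t ^ 2 + 1) ≤ 2 * t * (B + 2 * A) := by
    rw [hv]
    nlinarith [Nat.zero_le (A * v)]
  set u0 := A / (2 * t * L) + 1 with hu0
  have htL : 0 < 2 * t * L := by positivity
  have h6 : A < 2 * t * L * u0 := Nat.lt_mul_div_succ A htL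
  have h7 : 2 * t * L * u0 ≤ A + 2 * t * L := by
    rw [hu0, Nat.mul_add, mul_one]
    exact Nat.add_le_add_right (Nat.mul_div_le _ _) _
  refine ⟨fun s => 2 * t * (L * (u0 + s)), fun s => w * (L * (u0 + s)),
    fun s => (t ^ 2 + 1) * (L * (u0 + s)), ?_, ?_, ?_, ?_⟩
  · intro s s' h
    have h8 := Nat.eq_of_mul_eq_mul_left (by omega) h
    have h9 := Nat.eq_of_mul_eq_mul_left hL h8
    omega
  · intro s s' h
    have h8 := Nat.eq_of_mul_eq_mul_left hw0 h
    have h9 := Nat.eq_of_mul_eq_mul_left hL h8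
    omega
  · intro s s' h
    have h8 := Nat.eq_of_mul_eq_mul_left (by positivity) h
    have h9 := Nat.eq_of_mul_eq_mul_left hL h8
    omega
  · intro s hs
    have hX1 : A ≤ 2 * t * (L * (u0 + s)) := by nlinarith
    have hX2 : 2 * t * (L * (u0 + s)) ≤ A + 2 * t * L * (E + 1) := by
      have : 2 * t * L * s ≤ 2 * t * L * E := Nat.mul_le_mul_left _ hs
      nlinarith
    have ht0 : 0 < 2 * t := by omega
    refine ⟨?_, ?_, ?_, hX1, hX2.trans (by omega), ?_, ?_, ?_, ?_⟩
    · exact Dvd.intro_left _ (by ring_nf : (2 * t * (u0 + s)) * L = 2 * t * (L * (u0 + s)))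
    · exact Dvd.intro_left _ (by ring_nf : (w * (u0 + s)) * L = w * (L * (u0 + s)))
    · exact Dvd.intro_left _ (by ring_nf : ((t ^ 2 + 1) * (u0 + s)) * L = (t ^ 2 + 1) * (L * (u0 + s)))
    · refine Nat.le_of_mul_le_mul_left ?_ ht0
      calc 2 * t * B ≤ A * w := h1
        _ ≤ 2 * t * (L * (u0 + s)) * w := Nat.mul_le_mul_right _ hX1
        _ = 2 * t * (w * (L * (u0 + s))) := by ring
    · have hk : 0 < L * (u0 + s) := by positivity
      exact Nat.mul_lt_mul_of_pos_right (by omega) hk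
    · refine Nat.le_of_mul_le_mul_left ?_ ht0
      calc 2 * t * ((t ^ 2 + 1) * (L * (u0 + s))) = 2 * t * (L * (u0 + s)) * (t ^ 2 + 1) := by ring
        _ ≤ (A + 2 * t * L * (E + 1)) * (t ^ 2 + 1) := Nat.mul_le_mul_right _ hX2
        _ = A * (t ^ 2 + 1) + 2 * t * (L * (t ^ 2 + 1) * (E + 1)) := by ring
        _ ≤ 2 * t * (B + 2 * A) + 2 * t * (L * (t ^ 2 + 1) * (E + 1)) := by omega
        _ = 2 * t * (B + (2 * A + L * (t ^ 2 + 1) * (E + 1))) := by ring
        _ ≤ 2 * t * (B + m) := Nat.mul_le_mul_left _ (by omega)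
    · have : (2 * t * (L * (u0 + s))) ^ 2 + (w * (L * (u0 + s))) ^ 2 =
        (4 * t ^ 2 + w ^ 2) * (L * (u0 + s)) ^ 2 := by ring
      rw [this, hw]
      ring

/-- the multiples of `q` in `[A, A + l]` which are not in `V` -/
noncomputable def exc (V : Set ℕ) (q A l : ℕ) : Finset ℕ := by
  classical
  exact (Finset.Icc A (A + l)).filter fun n => q ∣ n ∧ n ∉ V

theorem mem_exc {V : Set ℕ} {q A l : ℕ} {n : ℕ} :
    n ∈ exc V q A l ↔ (A ≤ n ∧ n ≤ A + l) ∧ q ∣ n ∧ n ∉ V := by
  classical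
  unfold exc
  rw [Finset.mem_filter, Finset.mem_Icc]

/-- two progressions, at suitable scales, with almost all elements in the same set `V` -/
theorem pair (V : Set ℕ) {p q A B l m : ℕ} (hA : 0 < A) (hp : 0 < p)
    (hq : 0 < q)
    (ha : 2 * (2 * B / A + 2) * (p * q) *
      ((exc V p A l).card + 2 * (exc V q B m).card + 1) ≤ l)
    (hb : 2 * A + p * q * ((2 * B / A + 2) ^ 2 + 1) *
      ((exc V p A l).card + 2 * (exc V q B m).card + 1) ≤ m) :
    ∃ x y z : ℕ, p ∣ x ∧ q ∣ y ∧ q ∣ z ∧ A ≤ x ∧ x ≤ A + l ∧ B ≤ y ∧ y < z ∧ z ≤ B + m ∧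
      x ^ 2 + y ^ 2 = z ^ 2 ∧ x ∈ V ∧ y ∈ V ∧ z ∈ V := by
  classical
  obtain ⟨X, Y, Z, hX, hY, hZ, h⟩ := fam (E := (exc V p A l).card + 2 * (exc V q B m).card)
    hA (Nat.mul_pos hp hq) ha hb
  set E := (exc V p A l).card + 2 * (exc V q B m).card with hE
  by_contra hcon
  push Not at hcon
  have hsub : Finset.range (E + 1) ⊆
      ((Finset.range (E + 1)).filter fun s => X s ∈ exc V p A l) ∪
      (((Finset.range (E + 1)).filter fun s => Y s ∈ exc V q B m) ∪
      ((Finset.range (E + 1)).filter fun s => Z s ∈ exc V q B m)) := by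
    intro s hs
    have hs' : s ≤ E := by have := Finset.mem_range.1 hs; omega
    obtain ⟨h1, h2, h3, h4, h5, h6, h7, h8, h9⟩ := h s hs'
    rw [Finset.mem_union, Finset.mem_union, Finset.mem_filter, Finset.mem_filter, Finset.mem_filter]
    by_contra hno
    push Not at hno
    obtain ⟨n1, n2, n3⟩ := hno
    have n1 := n1 hs
    have n2 := n2 hs
    have n3 := n3 hs
    rw [mem_exc] at n1 n2 n3
    have hpx : p ∣ X s := (Dvd.intro _ rfl).trans h1
    have hqy : q ∣ Y s := (Dvd.intro_left _ rfl).trans h2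
    have hqz : q ∣ Z s := (Dvd.intro_left _ rfl).trans h3
    have e1 : X s ∈ V := by
      by_contra hc
      exact n1 ⟨⟨h4, h5⟩, hpx, hc⟩
    have e2 : Y s ∈ V := by
      by_contra hc
      exact n2 ⟨⟨h6, by omega⟩, hqy, hc⟩
    have e3 : Z s ∈ V := by
      by_contra hc
      exact n3 ⟨⟨by omega, h8⟩, hqz, hc⟩
    exact hcon (X s) (Y s) (Z s) hpx hqy hqz h4 h5 h6 h7 h8 h9 e1 e2 e3
  have c1 := Finset.card_le_card_of_injOn (s := (Finset.range (E + 1)).filter fun s => X s ∈ exc V p A l)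
    (t := exc V p A l) X (fun s hs => (Finset.mem_filter.1 hs).2) hX.injOn
  have c2 := Finset.card_le_card_of_injOn (s := (Finset.range (E + 1)).filter fun s => Y s ∈ exc V q B m)
    (t := exc V q B m) Y (fun s hs => (Finset.mem_filter.1 hs).2) hY.injOn
  have c3 := Finset.card_le_card_of_injOn (s := (Finset.range (E + 1)).filter fun s => Z s ∈ exc V q B m)
    (t := exc V q B m) Z (fun s hs => (Finset.mem_filter.1 hs).2) hZ.injOn
  have c4 := Finset.card_le_card hsub
  have c5 := Finset.card_union_le ((Finset.range (E + 1)).filter fun s => X s ∈ exc V p A l)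
    (((Finset.range (E + 1)).filter fun s => Y s ∈ exc V q B m) ∪
      ((Finset.range (E + 1)).filter fun s => Z s ∈ exc V q B m))
  have c6 := Finset.card_union_le ((Finset.range (E + 1)).filter fun s => Y s ∈ exc V q B m)
      ((Finset.range (E + 1)).filter fun s => Z s ∈ exc V q B m)
  rw [Finset.card_range] at c4
  omega

end Pool.Agent.Run7.h476.LP
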