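import Pool.Agent.Run7.h476.LP.Main

set_option autoImplicit false

namespace Pool.Agent.Run7.h476.LP

open Finset

theorem geom {A B : ℕ} (hA : 0 < A) (hAB : A ≤ B) :
    ∃ t w : ℕ, 2 ≤ t ∧ 0 < w ∧ t ^ 2 = w + 1 ∧ 2 * t * B ≤ A * w ∧
      A * (t ^ 2 + 1) ≤ 2 * t * (B + 2 * A) ∧ A * t ≤ 4 * B := by
  set t := 2 * B / A + 2 with ht
  have ht2 : 2 ≤ t := Nat.le_add_left _ _
  obtain ⟨w, hw⟩ : ∃ w, t ^ 2 = w + 1 := ⟨t ^ 2 - 1, by
    have : 1 ≤ t ^ 2 := Nat.one_le_pow _ _ (by omega)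
    omega⟩
  have hw0 : 0 < w := by nlinarith
  have h3 : 2 * B < A * (t - 1) := by
    have := Nat.lt_mul_div_succ (2 * B) hA
    have h4 : t - 1 = 2 * B / A + 1 := by omega
    rw [h4]; exact this
  have h5 : A * (t - 2) ≤ 2 * B := by
    have := Nat.mul_div_le (2 * B) A
    have h4 : t - 2 = 2 * B / A := by omega
    rw [h4]; exact this
  obtain ⟨v, hv⟩ : ∃ v, t = v + 2 := ⟨t - 2, by omega⟩
  have h3' : 2 * B < A * (v + 1) := by rw [hv] at h3; exact h3
  have h5' : A * v ≤ 2 * B := by rw [hv] at h5; exact h5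
  refine ⟨t, w, ht2, hw0, hw, ?_, ?_, ?_⟩
  · have hwv : w = (v + 1) * (v + 3) := by
      have : w + 1 = (v + 2) ^ 2 := by rw [← hw, hv]
      nlinarith
    rw [hwv, hv]
    nlinarith
  · rw [hv]
    nlinarith [Nat.zero_le (A * v)]
  · rw [hv]
    nlinarith

theorem pick {K X Y : Finset ℕ} {f g h : ℕ → ℕ} (hf : Function.Injective f)
    (hg : Function.Injective g) (hh : Function.Injective h) (hc : X.card + 2 * Y.card < K.card) :
    ∃ k ∈ K, f k ∉ X ∧ g k ∉ Y ∧ h k ∉ Y := by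
  classical
  by_contra hcon
  push Not at hcon
  have hsub : K ⊆ (K.filter fun s => f s ∈ X) ∪
      ((K.filter fun s => g s ∈ Y) ∪ (K.filter fun s => h s ∈ Y)) := by
    intro s hs
    rw [Finset.mem_union, Finset.mem_union, Finset.mem_filter, Finset.mem_filter, Finset.mem_filter]
    by_cases h1 : f s ∈ X
    · exact Or.inl ⟨hs, h1⟩
    · by_cases h2 : g s ∈ Y
      · exact Or.inr (Or.inl ⟨hs, h2⟩)
      · exact Or.inr (Or.inr ⟨hs, hcon s hs h1 h2⟩)
  have c1 := Finset.card_le_card_of_injOn (s := K.filter fun s => f s ∈ X)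
    (t := X) f (fun s hs => (Finset.mem_filter.1 hs).2) hf.injOn
  have c2 := Finset.card_le_card_of_injOn (s := K.filter fun s => g s ∈ Y)
    (t := Y) g (fun s hs => (Finset.mem_filter.1 hs).2) hg.injOn
  have c3 := Finset.card_le_card_of_injOn (s := K.filter fun s => h s ∈ Y)
    (t := Y) h (fun s hs => (Finset.mem_filter.1 hs).2) hh.injOn
  have c4 := Finset.card_le_card hsub
  have c5 := Finset.card_union_le (K.filter fun s => f s ∈ X)
    ((K.filter fun s => g s ∈ Y) ∪ (K.filter fun s => h s ∈ Y))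
  have c6 := Finset.card_union_le (K.filter fun s => g s ∈ Y) (K.filter fun s => h s ∈ Y)
  omega

/-- exceptions: the elements of `D` in `[A, (1 + δ) A]` which are not in `V` -/
def excD (V D : Set ℕ) (δ : ℝ) (A : ℕ) : Set ℕ :=
  {n : ℕ | A ≤ n ∧ (n : ℝ) ≤ (1 + δ) * A ∧ n ∈ D ∧ n ∉ V}

theorem excD_finite (V D : Set ℕ) (δ : ℝ) (A : ℕ) : (excD V D δ A).Finite := by
  refine (Set.finite_Iic ⌊(1 + δ) * A⌋₊).subset ?_
  rintro n ⟨-, h, -⟩
  exact Nat.le_floor h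

/-- the `k` in `[A, (1 + δ) A]` with `k, 2 k, …, S k` in `D` -/
def core (D : Set ℕ) (S : ℕ) (δ : ℝ) (A : ℕ) : Set ℕ :=
  {k : ℕ | A ≤ k ∧ (k : ℝ) ≤ (1 + δ) * A ∧ ∀ s, 0 < s → s ≤ S → s * k ∈ D}

theorem core_finite (D : Set ℕ) (S : ℕ) (δ : ℝ) (A : ℕ) : (core D S δ A).Finite := by
  refine (Set.finite_Iic ⌊(1 + δ) * A⌋₊).subset ?_
  rintro n ⟨-, h, -⟩
  exact Nat.le_floor h

theorem pairD (V D : Set ℕ) {A B P S : ℕ} {δ ρ ε : ℝ} {A₀ : ℕ}
    (hδ : 0 < δ) (hδ1 : δ ≤ 1) (hρ : 0 < ρ)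
    (hD : ∀ n ≥ A₀, ρ * n ≤ ((core D S (δ / 16) n).ncard : ℝ))
    (hP : 0 < P) (hS : 17 * P ^ 2 ≤ S) (hε : ε * (32 * P ^ 2) ≤ ρ)
    (hA0 : 8 * P * (A₀ + 1) ≤ A) (hA1 : 128 * P ≤ δ * A)
    (h1 : 8 * A ≤ δ * B) (h2 : B ≤ A * P)
    (eA : ((excD V D δ A).ncard : ℝ) ≤ ε * A) (eB : ((excD V D δ B).ncard : ℝ) ≤ ε * B) :
    ∃ x y z : ℕ, x ∈ D ∧ y ∈ D ∧ z ∈ D ∧ A ≤ x ∧ B ≤ y ∧ B ≤ z ∧
      x ^ 2 + y ^ 2 = z ^ 2 ∧ x ∈ V ∧ y ∈ V ∧ z ∈ V := by
  have hA : 0 < A := lt_of_lt_of_le (by positivity) hA0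
  have hAr : (0 : ℝ) < A := by exact_mod_cast hA
  have hPr : (1 : ℝ) ≤ P := by exact_mod_cast hP
  have hdd : δ * δ ≤ δ := by nlinarith
  have hAB : A ≤ B := by
    have : (A : ℝ) ≤ B := by
      have : δ * B ≤ 1 * B := by gcongr
      linarith
    exact_mod_cast this
  obtain ⟨t, w, ht2, hw0, hw, g1, g2, g3⟩ := geom hA hAB
  have htP : t ≤ 4 * P := by
    refine Nat.le_of_mul_le_mul_left ?_ hA
    calc A * t ≤ 4 * B := g3
      _ ≤ 4 * (A * P) := Nat.mul_le_mul_left _ h2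
      _ = A * (4 * P) := by ring
  have ht0 : 0 < 2 * t := by omega
  set n := A / (2 * t) + 1 with hn
  have n1 : A < 2 * t * n := Nat.lt_mul_div_succ A ht0
  have n2 : 2 * t * n ≤ A + 2 * t := by
    rw [hn, Nat.mul_add, mul_one]
    exact Nat.add_le_add_right (Nat.mul_div_le _ _) _
  have n3 : A ≤ 8 * P * n := by nlinarith
  have n4 : A₀ ≤ n := by
    have : 8 * P * (A₀ + 1) ≤ 8 * P * n := hA0.trans n3
    have := Nat.le_of_mul_le_mul_left this (by positivity)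
    omega
  have hcore := hD n n4
  have hE0 : ε * B ≤ ε * (A * P) ∨ ε < 0 := by
    rcases lt_or_ge ε 0 with h | h
    · exact Or.inr h
    · left
      have : (B : ℝ) ≤ A * P := by exact_mod_cast h2
      gcongr
  have hfinal : ((excD V D δ A).ncard : ℝ) + 2 * ((excD V D δ B).ncard : ℝ) <
      ((core D S (δ / 16) n).ncard : ℝ) := by
    refine lt_of_lt_of_le ?_ hcore
    have n3r : (A : ℝ) ≤ 8 * P * n := by exact_mod_cast n3
    have hnr : (0 : ℝ) < n := by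
      have : 0 < n := Nat.succ_pos _
      exact_mod_cast this
    rcases hE0 with h | h
    · have e0 : 0 ≤ ε := by
        by_contra hneg
        push Not at hneg
        have : ε * A < 0 := mul_neg_of_neg_of_pos hneg hAr
        have : (0 : ℝ) ≤ ((excD V D δ A).ncard : ℝ) := by positivity
        linarith
      have e1 : ε * A ≤ ε * (A * P) := by
        have : (A : ℝ) ≤ A * P := by nlinarith
        gcongr
      have e2 : ε * (A * P) ≤ ε * (8 * P * n * P) := by gcongr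
      have e3 : ε * (8 * P * n * P) * 4 ≤ ρ * n := by
        calc ε * (8 * P * n * P) * 4 = ε * (32 * P ^ 2) * n := by ring
          _ ≤ ρ * n := by gcongr
      have e4 : 0 < ρ * n := by positivity
      nlinarith
    · have : ε * A < 0 := mul_neg_of_neg_of_pos h hAr
      have : (0 : ℝ) ≤ ((excD V D δ A).ncard : ℝ) := by positivity
      linarith
  have hfinN : (excD V D δ A).ncard + 2 * (excD V D δ B).ncard <
      (core D S (δ / 16) n).ncard := by exact_mod_cast hfinal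
  have hw2 : 0 < t ^ 2 + 1 := by positivity
  obtain ⟨k, hk, p1, p2, p3⟩ := pick (K := (core_finite D S (δ / 16) n).toFinset)
    (X := (excD_finite V D δ A).toFinset) (Y := (excD_finite V D δ B).toFinset)
    (f := fun k => 2 * t * k) (g := fun k => w * k) (h := fun k => (t ^ 2 + 1) * k)
    (fun s s' h => Nat.eq_of_mul_eq_mul_left ht0 h)
    (fun s s' h => Nat.eq_of_mul_eq_mul_left hw0 h)
    (fun s s' h => Nat.eq_of_mul_eq_mul_left hw2 h)
    (by
      rw [← Set.ncard_eq_toFinset_card _ (core_finite D S (δ / 16) n),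
        ← Set.ncard_eq_toFinset_card _ (excD_finite V D δ A),
        ← Set.ncard_eq_toFinset_card _ (excD_finite V D δ B)]
      exact hfinN)
  rw [Set.Finite.mem_toFinset] at hk p1 p2 p3
  obtain ⟨k1, k2, k3⟩ := hk
  have hPt : t ^ 2 + 1 ≤ S := by nlinarith
  have d1 : 2 * t * k ∈ D := k3 _ ht0 (by nlinarith)
  have d2 : w * k ∈ D := k3 _ hw0 (by omega)
  have d3 : (t ^ 2 + 1) * k ∈ D := k3 _ hw2 hPt
  have x1 : A ≤ 2 * t * k := by nlinarith
  have x2 : ((2 * t * k : ℕ) : ℝ) ≤ (1 + δ / 4) * A := by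
    have a1 : ((2 * t * n : ℕ) : ℝ) ≤ A + 2 * t := by exact_mod_cast n2
    have a2 : (2 * t : ℝ) ≤ δ / 16 * A := by
      have : (t : ℝ) ≤ 4 * P := by exact_mod_cast htP
      linarith
    push_cast at a1 ⊢
    have htr : (0 : ℝ) < t := by
      have : 0 < t := by omega
      exact_mod_cast this
    calc 2 * (t : ℝ) * k ≤ 2 * t * ((1 + δ / 16) * n) := by gcongr
      _ = (1 + δ / 16) * (2 * t * n) := by ring
      _ ≤ (1 + δ / 16) * (A + δ / 16 * A) := by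
          gcongr
          linarith
      _ = (1 + δ / 8 + δ * δ / 256) * A := by ring
      _ ≤ (1 + δ / 4) * A := mul_le_mul_of_nonneg_right (by linarith) hAr.le
  have y1 : B ≤ w * k := by
    refine Nat.le_of_mul_le_mul_left ?_ ht0
    calc 2 * t * B ≤ A * w := g1
      _ ≤ 2 * t * k * w := Nat.mul_le_mul_right _ x1
      _ = 2 * t * (w * k) := by ring
  have z1 : w * k ≤ (t ^ 2 + 1) * k := Nat.mul_le_mul_right _ (by omega)
  have z2 : (((t ^ 2 + 1) * k : ℕ) : ℝ) ≤ (1 + δ) * B := by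
    have htr : (0 : ℝ) < 2 * t := by exact_mod_cast ht0
    refine le_of_mul_le_mul_left ?_ htr
    have g2r : (A : ℝ) * (t ^ 2 + 1) ≤ 2 * t * (B + 2 * A) := by exact_mod_cast g2
    push_cast at x2 ⊢
    calc 2 * (t : ℝ) * ((t ^ 2 + 1) * k) = (2 * t * k) * (t ^ 2 + 1) := by ring
      _ ≤ ((1 + δ / 4) * A) * (t ^ 2 + 1) := by gcongr
      _ = (1 + δ / 4) * (A * (t ^ 2 + 1)) := by ring
      _ ≤ (1 + δ / 4) * (2 * t * (B + 2 * A)) := by gcongr
      _ ≤ (1 + δ / 4) * (2 * t * (B + δ / 4 * B)) := mul_le_mul_of_nonneg_left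
          (mul_le_mul_of_nonneg_left (by linarith) htr.le) (by linarith)
      _ = 2 * t * ((1 + δ / 2 + δ * δ / 16) * B) := by ring
      _ ≤ 2 * t * ((1 + δ) * B) := mul_le_mul_of_nonneg_left
          (mul_le_mul_of_nonneg_right (by linarith) (Nat.cast_nonneg _)) htr.le
  have y2 : ((w * k : ℕ) : ℝ) ≤ (1 + δ) * B := le_trans (by exact_mod_cast z1) z2
  refine ⟨2 * t * k, w * k, (t ^ 2 + 1) * k, d1, d2, d3, x1, y1, y1.trans z1, ?_, ?_, ?_, ?_⟩
  · have : (2 * t * k) ^ 2 + (w * k) ^ 2 = (4 * t ^ 2 + w ^ 2) * k ^ 2 := by ring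
    rw [this, hw]
    ring
  · by_contra hne
    exact p1 ⟨x1, le_trans x2 (by gcongr; linarith), d1, hne⟩
  · by_contra hne
    exact p2 ⟨y1, y2, d2, hne⟩
  · by_contra hne
    exact p3 ⟨y1.trans z1, z2, d3, hne⟩

end Pool.Agent.Run7.h476.LP
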